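import Pool.Agent.helper34.TQ6.Suff1

set_option autoImplicit false

/-!
# Kernels of several row functions

For every colour `c` there is a height function `β c`; the arcs of `D c` go from the higher to the
lower end.  Processing the colours one after the other, colour `c` is given to the kernel of `D c`
in the set of the vertices which are still uncoloured (and have `c` in their list).  A vertex that
stays uncoloured has, for every colour `c` of its list, an out-neighbour in `D c` of colour `c`.
-/

namespace Pool.Agent.helper58.TQ6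

open Pool.Agent.helper78.TQ6 (Ew WG)
open Pool.Agent.helper34.TQ6 (Down Out exists_beta)

/-- the kernel of the set `X` along a height function -/
theorem exists_kernel {V : Type} [Finite V] (G : SimpleGraph V) (β : V → ℚ) (X : V → Prop) :
    ∃ K : V → Prop, ∀ v, K v ↔ X v ∧ ∀ u, G.Adj v u → β u < β v → ¬ K u := by
  classical
  have : IsTrans V (fun u v : V => β u < β v) := ⟨fun _ _ _ h1 h2 => lt_trans h1 h2⟩
  have : Std.Irrefl (fun u v : V => β u < β v) := ⟨fun _ h => lt_irrefl _ h⟩
  have hwf : WellFounded (fun u v : V => β u < β v) :=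
    Finite.wellFounded_of_trans_of_irrefl _
  refine ⟨hwf.fix (fun v g => X v ∧ ∀ u, G.Adj v u → ∀ h : β u < β v, ¬ g u h), fun v => ?_⟩
  conv_lhs => rw [hwf.fix_eq]

/-- the cascade of kernels -/
theorem cascade {V C : Type} [Finite V] [Finite C] (G : SimpleGraph V) (β : C → V → ℚ)
    (hβ : ∀ c u v, G.Adj u v → β c u ≠ β c v) (L : V → C → Prop) :
    ∃ f : V → Option C, (∀ v c, f v = some c → L v c) ∧
      (∀ u v c, G.Adj u v → f u = some c → f v ≠ some c) ∧
      (∀ v, f v = none → ∀ c, L v c → ∃ u, G.Adj v u ∧ β c u < β c v ∧ f u = some c) := by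
  classical
  have : Fintype C := Fintype.ofFinite C
  have key : ∀ S : Finset C, ∃ f : V → Option C, (∀ v c, f v = some c → L v c ∧ c ∈ S) ∧
      (∀ u v c, G.Adj u v → f u = some c → f v ≠ some c) ∧
      (∀ v, f v = none → ∀ c, c ∈ S → L v c → ∃ u, G.Adj v u ∧ β c u < β c v ∧
        f u = some c) := by
    intro S
    induction S using Finset.induction_on with
    | empty =>
      exact ⟨fun _ => none, fun v c h => absurd h (by simp), fun u v c _ h => absurd h (by simp),
        fun v _ c h => absurd h (by simp)⟩
    | insert a S ha ih =>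
      obtain ⟨f, h1, h2, h3⟩ := ih
      obtain ⟨K, hK⟩ := exists_kernel G (β a) (fun v => f v = none ∧ L v a)
      have hfa : ∀ v, f v ≠ some a := fun v h => ha (h1 v a h).2
      refine ⟨fun v => if K v then some a else f v, ?_, ?_, ?_⟩
      · intro v c hv
        by_cases hk : K v
        · simp only [hk, if_true, Option.some.injEq] at hv
          subst hv
          exact ⟨((hK v).1 hk).1.2, Finset.mem_insert_self _ _⟩
        · simp only [hk, if_false] at hv
          exact ⟨(h1 v c hv).1, Finset.mem_insert_of_mem (h1 v c hv).2⟩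
      · intro u v c huv hu hv
        by_cases hku : K u
        · simp only [hku, if_true, Option.some.injEq] at hu
          subst hu
          by_cases hkv : K v
          · rcases lt_or_gt_of_ne (hβ a u v huv) with h | h
            · exact ((hK v).1 hkv).2 u huv.symm h hku
            · exact ((hK u).1 hku).2 v huv h hkv
          · simp only [hkv, if_false] at hv
            exact hfa v hv
        · simp only [hku, if_false] at hu
          by_cases hkv : K v
          · simp only [hkv, if_true, Option.some.injEq] at hv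
            subst hv
            exact hfa u hu
          · simp only [hkv, if_false] at hv
            exact h2 u v c huv hu hv
      · intro v hv c hc hL
        by_cases hkv : K v
        · simp [hkv] at hv
        · simp only [hkv, if_false] at hv
          rcases Finset.mem_insert.1 hc with h | h
          · subst h
            have h4 := (not_congr (hK v)).1 hkv
            push Not at h4
            obtain ⟨u, hu1, hu2, hu3⟩ := h4 ⟨hv, hL⟩
            exact ⟨u, hu1, hu2, by simp [hu3]⟩
          · obtain ⟨u, hu1, hu2, hu3⟩ := h3 v hv c h hL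
            refine ⟨u, hu1, hu2, ?_⟩
            have : ¬ K u := fun hk => by
              have := ((hK u).1 hk).1.1
              rw [hu3] at this
              exact absurd this (by simp)
            simp [this, hu3]
  obtain ⟨f, h1, h2, h3⟩ := key Finset.univ
  exact ⟨f, fun v c h => (h1 v c h).1, h2, fun v h c hL => h3 v h c (Finset.mem_univ _) hL⟩

/-- Kernels and one more colour.  `B v` is the set of the colours which may fail at `v`; for the
other colours of the list `L v` the out-neighbours are in `F v`. -/
theorem mixed {V C : Type} [Finite V] [Finite C] [DecidableEq C] (G : SimpleGraph V)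
    (β : C → V → ℚ) (hβ : ∀ c u v, G.Adj u v → β c u ≠ β c v) (L B : V → Finset C)
    (I : V → Prop) (F : V → Finset V)
    (hF : ∀ v c u, c ∈ L v → c ∉ B v → c ∈ L u → G.Adj v u → β c u < β c v → u ∈ F v)
    (hE : ∀ u v, G.Adj u v → I u → I v → u ∈ F v ∨ v ∈ F u)
    (h1 : ∀ v, (F v).card ≤ (L v \ B v).card)
    (h2 : ∀ v, ¬ I v → (F v).card < (L v \ B v).card) :
    ∃ f : V → Option C, (∀ v c, f v = some c → c ∈ L v) ∧ (∀ v, f v = none → I v) ∧
      (∀ u v, G.Adj u v → f u ≠ f v) := by
  classical
  obtain ⟨f, f1, f2, f3⟩ := cascade G β hβ (fun v c => c ∈ L v)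
  have hcard : ∀ v, f v = none →
      (L v \ B v).card ≤ ((F v).filter (fun u => f u ≠ none)).card := by
    intro v hv
    rw [← Finset.card_image_of_injective (L v \ B v) (Option.some_injective C)]
    refine le_trans (Finset.card_le_card ?_) (Finset.card_image_le (f := f))
    intro t ht
    rw [Finset.mem_image] at ht
    obtain ⟨c, hc, rfl⟩ := ht
    rw [Finset.mem_sdiff] at hc
    obtain ⟨u, hu1, hu2, hu3⟩ := f3 v hv c hc.1
    rw [Finset.mem_image]
    refine ⟨u, Finset.mem_filter.2 ⟨hF v c u hc.1 hc.2 (f1 u c hu3) hu1 hu2, ?_⟩, hu3⟩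
    rw [hu3]
    exact Option.some_ne_none c
  have hI : ∀ v, f v = none → I v := by
    intro v hv
    by_contra h
    have h3 := h2 v h
    have h4 := hcard v hv
    have h5 := Finset.card_filter_le (F v) (fun u => f u ≠ none)
    omega
  have hall : ∀ v, f v = none → ∀ u, u ∈ F v → f u ≠ none := by
    intro v hv u hu
    have h5 : (F v).filter (fun u => f u ≠ none) = F v :=
      Finset.eq_of_subset_of_card_le (Finset.filter_subset _ _) ((h1 v).trans (hcard v hv))
    rw [← h5, Finset.mem_filter] at hu
    exact hu.2
  refine ⟨f, f1, hI, fun u v huv h => ?_⟩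
  rcases hu : f u with _ | c
  · rw [hu] at h
    rcases hE u v huv (hI u hu) (hI v h.symm) with h6 | h6
    · exact hall v h.symm u h6 hu
    · exact hall u hu v h6 h.symm
  · rw [hu] at h
    exact f2 u v c huv hu h.symm

/-- Six colours from labels `L` and five row functions.  `F v` are the out-neighbours, `B v` the
bad row functions and `C v` the forbidden colours of `v`. -/
theorem kernelL {n : ℕ} {p : ℕ → ℕ} (hp : Monotone p) (hlow : ∀ x, x + 1 ≤ p x)
    (L : ℕ → Option (Fin 6)) (ρ : Fin 5 → ℕ → ℕ) (hρ : ∀ i, Monotone (ρ i))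
    (hL : ∀ u w c, w < n → Ew p u w → L u = some c → L w ≠ some c)
    (F : ℕ → Finset ℕ) (B : ℕ → Finset (Fin 5)) (C : ℕ → Finset (Fin 6))
    (hC : ∀ v u c, v < n → u < n → L v = none → (Ew p u v ∨ Ew p v u) → L u = some c →
      c ∈ C v)
    (hF : ∀ v u i, v < n → u < n → L v = none → L u = none → i ∉ B v → i.castSucc ∉ C v →
      i.castSucc ∉ C u → Out p (ρ i) v u → u ∈ F v)
    (hE : ∀ u v, u < n → v < n → L u = none → L v = none → Ew p u v → 5 ∉ C u → 5 ∉ C v →
      u ∈ F v ∨ v ∈ F u)
    (hc : ∀ v, v < n → L v = none → (F v).card + (B v).card + (C v).card ≤ 5) :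
    (WG n p).Colorable 6 := by
  classical
  have hβ := fun i => exists_beta (n := n) hp hlow (ρ i) (hρ i)
  choose β hβ using hβ
  let G : SimpleGraph (Fin n) :=
    { Adj := fun u v => (WG n p).Adj u v ∧ L u = none ∧ L v = none
      symm := ⟨fun _ _ h => ⟨h.1.symm, h.2.2, h.2.1⟩⟩
      loopless := ⟨fun _ h => (WG n p).irrefl h.1⟩ }
  have hcnt : ∀ v : Fin n, L v = none →
      (F v).card + (if 5 ∈ C v then 1 else 0) ≤
        ((Finset.univ.filter (fun i : Fin 5 => i.castSucc ∉ C v)) \ B v).card := by
    intro v hv
    have h1 := hc v v.isLt hv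
    have h2 : (Finset.univ.filter (fun i : Fin 5 => i.castSucc ∉ C v)).card - (B v).card ≤
        ((Finset.univ.filter (fun i : Fin 5 => i.castSucc ∉ C v)) \ B v).card :=
      Finset.le_card_sdiff _ _
    have h3 : (Finset.univ.filter (fun i : Fin 5 => i.castSucc ∈ C v)).card +
        (Finset.univ.filter (fun i : Fin 5 => i.castSucc ∉ C v)).card = 5 := by
      rw [Finset.card_filter_add_card_filter_not]
      simp
    have h4 : (Finset.univ.filter (fun i : Fin 5 => i.castSucc ∈ C v)).card +
        (if 5 ∈ C v then 1 else 0) ≤ (C v).card := by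
      rw [← Finset.card_map (Fin.castSuccEmb (n := 5))]
      have h5 : Finset.map (Fin.castSuccEmb (n := 5))
          (Finset.univ.filter (fun i : Fin 5 => i.castSucc ∈ C v)) ⊆ (C v).erase 5 := by
        intro t ht
        rw [Finset.mem_map] at ht
        obtain ⟨i, hi, rfl⟩ := ht
        rw [Finset.mem_filter] at hi
        rw [Finset.mem_erase]
        refine ⟨fun h => ?_, hi.2⟩
        have h6 := congrArg Fin.val h
        have h7 : ((5 : Fin 6) : ℕ) = 5 := rfl
        rw [h7] at h6
        have h8 : ((Fin.castSuccEmb (n := 5)) i : ℕ) = i.val := rfl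
        rw [h8] at h6
        omega
      have h6 := Finset.card_le_card h5
      split_ifs with h7
      · rw [Finset.card_erase_of_mem h7] at h6
        have h8 : 0 < (C v).card := Finset.card_pos.2 ⟨5, h7⟩
        omega
      · rw [Finset.erase_eq_of_notMem h7] at h6
        omega
    omega
  obtain ⟨f, f1, f2, f3⟩ := mixed (V := Fin n) (C := Fin 5) G (fun i v => β i v)
    (fun i u v huv => (hβ i u v u.isLt v.isLt huv.1).1)
    (fun v => if L v = none then Finset.univ.filter (fun i : Fin 5 => i.castSucc ∉ C v) else ∅)
    (fun v => B v) (fun v => L v = none → 5 ∉ C v)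
    (fun v => if L v = none then Finset.univ.filter (fun u : Fin n => u.val ∈ F v) else ∅)
    (by
      intro v i u h1 h2 h3 hvu hlt
      simp only [hvu.2.1, hvu.2.2, if_true, Finset.mem_filter, Finset.mem_univ, true_and]
        at h1 h3 ⊢
      exact hF v u i v.isLt u.isLt hvu.2.1 hvu.2.2 h2 h1 h3
        ((hβ i v u v.isLt u.isLt hvu.1).2 hlt))
    (by
      intro u v huv hu hv
      simp only [huv.2.1, huv.2.2, if_true, Finset.mem_filter, Finset.mem_univ, true_and]
      rcases huv.1 with h | h
      · exact hE u v u.isLt v.isLt huv.2.1 huv.2.2 h (hu huv.2.1) (hv huv.2.2)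
      · exact (hE v u v.isLt u.isLt huv.2.2 huv.2.1 h (hv huv.2.2) (hu huv.2.1)).symm)
    (by
      intro v
      by_cases hv : L v = none
      · simp only [hv, if_true]
        have h1 := hcnt v hv
        refine le_trans ?_ (le_trans (Nat.le_add_right _ _) h1)
        rw [← Finset.card_map Fin.valEmbedding]
        refine Finset.card_le_card ?_
        intro t ht
        rw [Finset.mem_map] at ht
        obtain ⟨u, hu, rfl⟩ := ht
        exact (Finset.mem_filter.1 hu).2
      · simp only [hv, if_false]
        simp)
    (by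
      intro v hI
      have hv : L v = none := by
        by_contra h
        exact hI (fun h' => absurd h' h)
      have h5 : 5 ∈ C v := by
        by_contra h
        exact hI (fun _ => h)
      simp only [hv, if_true]
      have h1 := hcnt v hv
      rw [if_pos h5] at h1
      refine lt_of_le_of_lt ?_ h1
      rw [← Finset.card_map Fin.valEmbedding]
      refine Finset.card_le_card ?_
      intro t ht
      rw [Finset.mem_map] at ht
      obtain ⟨u, hu, rfl⟩ := ht
      exact (Finset.mem_filter.1 hu).2)
  have g1 : ∀ v : Fin n, L v = none → ((f v).elim (5 : Fin 6) Fin.castSucc) ∉ C v := by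
    intro v hv
    rcases h : f v with _ | i
    · exact f2 v h hv
    · have h1 := f1 v i h
      simp only [hv, if_true, Finset.mem_filter, Finset.mem_univ, true_and] at h1
      exact h1
  have g2 : ∀ a b : Option (Fin 5), a ≠ b →
      (a.elim (5 : Fin 6) Fin.castSucc) ≠ b.elim (5 : Fin 6) Fin.castSucc := by
    decide
  refine ⟨SimpleGraph.Coloring.mk
    (fun v : Fin n => (L v).getD ((f v).elim (5 : Fin 6) Fin.castSucc)) ?_⟩
  have key : ∀ u w : Fin n, Ew p u w →
      (L u).getD ((f u).elim (5 : Fin 6) Fin.castSucc) ≠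
      (L w).getD ((f w).elim (5 : Fin 6) Fin.castSucc) := by
    intro u w hE'
    rcases hu : L u with _ | a
    · rcases hw : L w with _ | b
      · rw [Option.getD_none, Option.getD_none]
        exact g2 _ _ (f3 u w ⟨Or.inl hE', hu, hw⟩)
      · rw [Option.getD_none, Option.getD_some]
        intro h
        exact g1 u hu (h ▸ hC u w b u.isLt w.isLt hu (Or.inr hE') hw)
    · rcases hw : L w with _ | b
      · rw [Option.getD_none, Option.getD_some]
        intro h
        exact g1 w hw (h ▸ hC w u a w.isLt u.isLt hw (Or.inl hE') hu)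
      · rw [Option.getD_some, Option.getD_some]
        rintro rfl
        exact hL u w a w.isLt hE' hu hw
  intro u w hadj
  rcases hadj with h | h
  · exact key u w h
  · exact (key w u h).symm

/-- Six colours from five row functions: for every vertex `v` the out-neighbours are in a set
`F v` of at most four vertices, for all but at most one of the five row functions. -/
theorem kernel5 {n : ℕ} {p : ℕ → ℕ} (hp : Monotone p) (hlow : ∀ x, x + 1 ≤ p x)
    (ρ : Fin 5 → ℕ → ℕ) (hρ : ∀ i, Monotone (ρ i)) (F : ℕ → Finset ℕ) (b : ℕ → Fin 5)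
    (hF : ∀ v u i, v < n → u < n → i ≠ b v → Out p (ρ i) v u → u ∈ F v)
    (hc : ∀ v, v < n → (F v).card ≤ 4) :
    (WG n p).Colorable 6 := by
  classical
  refine kernelL hp hlow (fun _ => none) ρ hρ (by simp) F (fun v => {b v}) (fun _ => ∅)
    (by simp) ?_ ?_ ?_
  · intro v u i hv hu _ _ hi _ _ ho
    exact hF v u i hv hu (by simpa using hi) ho
  · intro u v hu hv _ _ hE _ _
    obtain ⟨i, hi⟩ : ∃ i : Fin 5, i ≠ b u ∧ i ≠ b v := by
      generalize b u = x
      generalize b v = y
      revert x y
      decide
    by_cases hD : Down p (ρ i) u v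
    · exact Or.inl (hF v u i hv hu hi.2 (Or.inl ⟨hE, hD⟩))
    · exact Or.inr (hF u v i hu hv hi.1 (Or.inr ⟨hE, hD⟩))
  · intro v hv _
    have := hc v hv
    simp
    omega

/-- the first left neighbour: the last `u` with `p u < v` -/
def fl (p : ℕ → ℕ) (v : ℕ) : ℕ := Nat.findGreatest (fun u => p u < v) v

theorem fl_eq {p : ℕ → ℕ} (hp : Monotone p) {u w : ℕ} (huw : u < w) (h1 : p u < w)
    (h2 : w ≤ p (u + 1)) : fl p w = u := by
  have h3 : u ≤ fl p w := Nat.le_findGreatest huw.le h1
  have h4 : p (fl p w) < w :=
    Nat.findGreatest_spec (P := fun u => p u < w) huw.le h1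
  by_contra h
  have h5 : u + 1 ≤ fl p w := by omega
  have := hp h5
  omega

/-- the four out-neighbours of the limit orientation -/
def F0 (p : ℕ → ℕ) (v : ℕ) : Finset ℕ := {v - 1, v - 2, p v, fl p v}

theorem F0_card (p : ℕ → ℕ) (v : ℕ) : (F0 p v).card ≤ 4 := by
  unfold F0
  exact Finset.card_le_four

/-- the `H`-form: a monotone function `H` that grows by at most one over two steps, by four or five
from `v` to its first right neighbour, and by five or six from a long left neighbour `u` of `w`
with `p u < w` to `w` -/
theorem hform {n : ℕ} {p : ℕ → ℕ} (hp : Monotone p) (hlow : ∀ x, x + 1 ≤ p x)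
    (H : ℕ → ℕ) (hH : Monotone H) (hs : ∀ v, v + 2 < n → H (v + 2) ≤ H v + 1)
    (hr : ∀ v, v + 3 ≤ p v → p v < n → H v + 4 ≤ H (p v) ∧ H (p v) ≤ H v + 5)
    (hl : ∀ u w, u + 3 ≤ w → w < n → p u < w → w ≤ p (u + 1) →
      H u + 5 ≤ H w ∧ H w ≤ H u + 6)
    (hs1 : ∀ v, v + 2 = n → H (v + 1) ≤ H v + 1) :
    (WG n p).Colorable 6 := by
  have hs' : ∀ u w, u < w → w ≤ u + 2 → w < n → H w ≤ H u + 1 := by
    intro u w h1 h2 h3
    by_cases h4 : u + 2 < n
    · exact le_trans (hH h2) (hs u h4)
    · have h5 : w = u + 1 := by omega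
      rw [h5]
      exact hs1 u (by omega)
  refine kernel5 hp hlow (fun i v => (H v + (5 - i.val)) / 5)
    (fun i u v huv => Nat.div_le_div_right (Nat.add_le_add_right (hH huv) _)) (F0 p)
    (fun v => ⟨(H v + 1) % 5, Nat.mod_lt _ (by omega)⟩) ?_ (fun v _ => F0_card p v)
  intro v u i hv hu hi ho
  have hi' : i.val ≠ (H v + 1) % 5 := fun h => hi (Fin.ext h)
  have hi5 : i.val < 5 := i.isLt
  simp only [Out, Down] at ho
  clear hi
  unfold F0
  simp only [Finset.mem_insert, Finset.mem_singleton]
  rcases ho with ⟨hE, hD⟩ | ⟨hE, hD⟩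
  · -- `u < v`, arc from `v` down to `u`
    obtain ⟨huv, hE⟩ := hE
    by_cases h3 : v ≤ u + 2
    · omega
    · rcases hE with hE | hE
      · omega
      · by_cases h4 : p u < v
        · right; right; right
          exact (fl_eq hp huv h4 hE.2).symm
        · exfalso
          have h5 : p u = v := by omega
          have h6 := hr u (by omega) (by omega)
          rw [h5] at h6
          rcases hD with ⟨_, hD⟩ | ⟨hD, _⟩
          · omega
          · omega
  · -- `v < u`, arc from `v` up to `u`
    obtain ⟨huv, hE⟩ := hE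
    have hD1 : ¬ (u ≤ p v ∧ (H u + (5 - i.val)) / 5 = (H v + (5 - i.val)) / 5) :=
      fun h => hD (Or.inl h)
    have hD2 : ¬ (p v < u ∧ (H u + (5 - i.val)) / 5 ≤ (H v + (5 - i.val)) / 5 + 1) :=
      fun h => hD (Or.inr h)
    have hm : H v ≤ H u := hH huv.le
    by_cases h3 : u ≤ v + 2
    · exfalso
      have h4 := hs' v u huv h3 hu
      by_cases h5 : u ≤ p v
      · have h6 : (H u + (5 - i.val)) / 5 ≠ (H v + (5 - i.val)) / 5 := fun h => hD1 ⟨h5, h⟩
        omega
      · have h6 : ¬ (H u + (5 - i.val)) / 5 ≤ (H v + (5 - i.val)) / 5 + 1 :=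
          fun h => hD2 ⟨by omega, h⟩
        omega
    · rcases hE with hE | hE
      · omega
      · by_cases h4 : p v < u
        · exfalso
          have h6 := hl v u (by omega) hu h4 hE.2
          have h7 : ¬ (H u + (5 - i.val)) / 5 ≤ (H v + (5 - i.val)) / 5 + 1 :=
            fun h => hD2 ⟨h4, h⟩
          omega
        · right; right; left
          omega

end Pool.Agent.helper58.TQ6
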